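import Pool.Agent.BEG.Stmts

/-!
# Squad BEG, row SBK (helper96): the restricted algebra.
-/

namespace Pool.Agent.BEG.H96

open Set Filter Topology MeasureTheory
open scoped InnerProductSpace ENNReal
open Pool.Agent.BE01 Pool.Agent.BEL Pool.Agent.BEF Pool.Agent.BEN Pool.Agent.BEH Pool.Agent.BEG

noncomputable section

variable {d : ℕ} {Ω : Set (En d)} {X : Type} [NormedCommRing X] [NormedAlgebra ℝ X]

/-- The subalgebra of the elements of `X` which are in `K`. -/
def sub (W : Wx X (Lp ℝ 2 (mu Ω))) (K : Submodule ℝ (Lp ℝ 2 (mu Ω))) (hX : Xok W)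
    (hK : Kst Ω K) : Subalgebra ℝ X where
  carrier := {x | W.e x ∈ K}
  mul_mem' := by
    intro a b ha hb
    exact hK.mul (W.e a) (W.e b) (W.e (a * b)) ha hb (hX.mul a b)
  one_mem' := hK.one _ hX.one
  add_mem' := by
    intro a b ha hb
    simp only [Set.mem_setOf_eq, map_add] at *
    exact K.add_mem ha hb
  zero_mem' := by
    simp only [Set.mem_setOf_eq, map_zero]
    exact K.zero_mem
  algebraMap_mem' := by
    intro r
    simp only [Set.mem_setOf_eq]
    rw [Algebra.algebraMap_eq_smul_one, map_smul]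
    exact K.smul_mem r (hK.one _ hX.one)

theorem sbk : SbkStmt := by
  intro d Ω X _ _ W Z K hX hW hK
  have hS : ∀ x : X, W.e x ∈ K → W.e (W.SX x) ∈ K := by
    intro x hx
    rw [W.e_SX]
    exact hK.slv (W.e x) hx (W.S (W.e x)) (Z (W.e x)) (hW.dom _) (hW.weak _)
  let A : Subalgebra ℝ X := sub W K hX hK
  have hA : ∀ x : A, W.e (x : X) ∈ K := fun x => x.2
  let eL : A →L[ℝ] Lp ℝ 2 (mu Ω) :=
    ⟨W.e.toLinearMap.comp A.val.toLinearMap, W.e.continuous.comp continuous_subtype_val⟩
  let sL : A →L[ℝ] A :=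
    ⟨{ toFun := fun x => ⟨W.SX (x : X), hS _ (hA x)⟩
       map_add' := by
        intro a b
        apply Subtype.ext
        exact map_add W.SX (a : X) (b : X)
       map_smul' := by
        intro r a
        apply Subtype.ext
        exact map_smul W.SX r (a : X) },
      (W.SX.continuous.comp continuous_subtype_val).subtype_mk _⟩
  refine ⟨A, inferInstance, inferInstance,
    { e := eL, S := W.S, R := W.R, C := W.C, Sn := W.Sn, SX := sL,
      e_inj := fun a b h => Subtype.ext (W.e_inj h)
      prp := W.prp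
      e_SX := fun x => W.e_SX (x : X) }, A.val, ?_⟩
  exact
    { nrm := fun x => rfl
      S := rfl
      R := rfl
      e := fun x => rfl
      SX := fun x => rfl
      mem := fun x => x.2
      rng := fun x hx => ⟨⟨x, hx⟩, rfl⟩ }

end

end Pool.Agent.BEG.H96
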